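import Pool.Agent.Q92.FP.Artin

/-!
# Artin motives from one `ℓ`-adic representation and few Rankin-Selberg coefficients

Let `Π` be an algebraic cuspidal automorphic representation of `GL_n` over `ℚ` and `S p` the
Frobenius eigenvalues of `rec(Π_p ⊗ |·|^((n-1)/2))` for the primes `p` outside a finite set `T`.
Suppose that the Rankin-Selberg coefficients `c_p = ∑_{a, b ∈ S p} a / b` lie in a finite set outside
a set of primes of upper density `≤ c`, `c n ^ 4 < 1`, and that a power of the central character is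
an integral power of the norm, `(∏ S p) ^ m = p ^ (n k m)`.

We show: if for ONE prime `ℓ` there is a continuous semisimple `ℓ`-adic representation attached to
`Π`, then there is an irreducible Artin representation `r : Gal(ℚbar/ℚ) → GL_n(ℂ)` (finite image)
with the Frobenius eigenvalues `a p ^ (-k)`, `a ∈ S p`: the motive `M_Π` is the Artin motive of `r`
twisted by `ℚ(-k)`.  In particular for EVERY prime `ℓ'` there is an irreducible `ℓ'`-adic
representation attached to `Π`.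

No regularity or self-duality, nothing at `ℓ`, no purity, no algebraicity of the Satake parameters.
The property of `Π` which is used besides its Satake parameters is the prime number theorem for
`L(s, Π × Π^∨)`, in the form `RankinSelberg`; it is used only for the irreducibility of `r`.
-/

set_option autoImplicit false

namespace Pool.Agent.Results.MP_7742d9_nt.ArtinTypeFromOneAdic

open NumberField Polynomial Matrix Filter Topology

-- `GQ` is the absolute Galois group `Gal(AlgebraicClosure ℚ/ℚ)`, `ZBar` is `𝓞 (AlgebraicClosure ℚ)`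
open Pool.Agent.Y800 (GQ ZBar)

/-- `Q` is a prime ideal above the prime number `p` of the ring of all algebraic integers. -/
def PrimeOver (p : ℕ) (Q : Ideal ZBar) : Prop :=
  Q.IsPrime ∧ (p : ZBar) ∈ Q

/-- `g` is in the inertia group at `Q`. -/
def IsInertia (Q : Ideal ZBar) (g : GQ) : Prop :=
  ∀ x : ZBar, g • x - x ∈ Q

/-- `g` is an (arithmetic) Frobenius element at the prime ideal `Q` above `p`. -/
def IsFrobenius (p : ℕ) (Q : Ideal ZBar) (g : GQ) :
    Prop := ∀ x : ZBar, g • x - x ^ p ∈ Q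

section

variable {k : Type} [Field k] {n : ℕ}

/-- The representation `ρ` over the field `k` is unramified at `p`, and the eigenvalues (with
multiplicities) of every geometric Frobenius element at `p` correspond under `ι` to the complex
numbers in `S`. -/
structure AttachedAt (ρ : GQ →* GL (Fin n) k) (ι : k →+* ℂ) (p : ℕ) (S : Multiset ℂ) : Prop where
  unramified : ∀ Q, PrimeOver p Q → ∀ g, IsInertia Q g → ρ g = 1
  frobenius : ∀ Q, PrimeOver p Q → ∀ g, IsFrobenius p Q g →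
    ((ρ g⁻¹ : Matrix (Fin n) (Fin n) k).charpoly.map ι).roots = S

/-- `U` is a subrepresentation of `ρ`. -/
def Stable (ρ : GQ →* GL (Fin n) k) (U : Submodule k (Fin n → k)) : Prop :=
  ∀ g, ∀ x ∈ U, (ρ g : Matrix (Fin n) (Fin n) k) *ᵥ x ∈ U

/-- `ρ` is irreducible. -/
def Irreducible (ρ : GQ →* GL (Fin n) k) : Prop := 0 < n ∧ ∀ U, Stable ρ U → U = ⊥ ∨ U = ⊤

/-- `ρ` is semisimple. -/
def Semisimple (ρ : GQ →* GL (Fin n) k) : Prop :=
  ∀ U, Stable ρ U → ∃ U', Stable ρ U' ∧ IsCompl U U'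

end

/-- The Rankin-Selberg coefficient `∑ a / b` (`a`, `b` in `A`). -/
noncomputable def coeff (A : Multiset ℂ) : ℂ := A.sum * (A.map fun a => a⁻¹).sum

/-- The Rankin-Selberg coefficients lie in a finite set for all primes outside a set `Z` of upper
density at most `c`, where `c n ^ 4 < 1`. -/
def FewValues (n : ℕ) (S : ℕ → Multiset ℂ) : Prop :=
  ∃ (F : Finset ℂ) (Z : Set ℕ) (c : ℝ), c * n ^ 4 < 1 ∧
    (∀ᶠ N : ℕ in atTop, (({p : ℕ | p.Prime ∧ p ≤ N ∧ p ∈ Z}.ncard : ℕ) : ℝ) ≤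
      c * (Nat.primeCounting N : ℝ)) ∧
    ∀ p : ℕ, p.Prime → p ∉ Z → coeff (S p) ∈ F

/-- The prime number theorem for `L(s, Π × Π^∨)`, in the form: if at almost all primes all members
of `S p` have the same absolute value, then the mean value of the Rankin-Selberg coefficients at the
primes `p ∉ T` is `1`. -/
def RankinSelberg (S : ℕ → Multiset ℂ) (T : Finset ℕ) : Prop :=
  (∀ᶠ p : ℕ in atTop, p.Prime → ∀ a ∈ S p, ∀ b ∈ S p, ‖a‖ = ‖b‖) →
    Tendsto (fun N : ℕ => (∑ p ∈ (Finset.range (N + 1)).filter (fun p => p.Prime ∧ p ∉ T),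
      coeff (S p)) / (Nat.primeCounting N : ℂ)) atTop (𝓝 1)

/-- A power of the product of the members of `S p` is a power of `p`, with exponents independent of
`p ∉ T`: the central character is of finite order up to an integral power of the norm, divisible by
`n`. -/
def CentralCharacter (n : ℕ) (k : ℤ) (S : ℕ → Multiset ℂ) (T : Finset ℕ) : Prop :=
  ∃ m : ℕ, 0 < m ∧ ∀ p : ℕ, p.Prime → p ∉ T → (S p).prod ^ m = (p : ℂ) ^ ((n : ℤ) * k * m)

/-- The Artin representation `r` belongs to `Π`, twisted by the `k`-th power of the norm: the image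
is finite (the kernel is open) and the geometric Frobenius elements at the primes `p ∉ B` have the
eigenvalues `a p ^ (-k)`, `a ∈ S p`. -/
def IsArtin {n : ℕ} (k : ℤ) (S : ℕ → Multiset ℂ) (B : Finset ℕ) (r : GQ →* GL (Fin n) ℂ) : Prop :=
  IsOpen (r.ker : Set GQ) ∧ ∀ p : ℕ, p.Prime → p ∉ B →
    AttachedAt r (RingHom.id ℂ) p ((S p).map fun a => a * (p : ℂ) ^ (-k))

/-- `ρ` is continuous and attached to `S p` at all primes `p ∉ B`. -/
def IsAdic {n : ℕ} (S : ℕ → Multiset ℂ) (B : Finset ℕ) {ℓ : ℕ} [Fact ℓ.Prime]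
    (ι : PadicAlgCl ℓ ≃+* ℂ) (ρ : GQ →* GL (Fin n) (PadicAlgCl ℓ)) : Prop :=
  Continuous ρ ∧ ∀ p : ℕ, p.Prime → p ∉ B → AttachedAt ρ (ι : PadicAlgCl ℓ →+* ℂ) p (S p)

open Pool.Agent.Q92.FP in
/-- from `ℓ`-adic representations to Artin representations -/
theorem to_artin {n : ℕ} (hn : 0 < n) (k : ℤ) (S : ℕ → Multiset ℂ) (T : Finset ℕ)
    (hF : FewValues n S) (hRS : RankinSelberg S T) (hω : CentralCharacter n k S T)
    {ℓ : ℕ} [Fact ℓ.Prime] (ι : PadicAlgCl ℓ ≃+* ℂ) (ρ : GQ →* GL (Fin n) (PadicAlgCl ℓ))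
    (hss : Semisimple ρ) (hS : IsAdic S (insert ℓ T) ι ρ) :
    ∃ r : GQ →* GL (Fin n) ℂ, Irreducible r ∧ IsArtin k S (insert ℓ T) r := by
  classical
  obtain ⟨hρ, hS⟩ := hS
  obtain ⟨F, Z, c, hc, hZ, hFZ⟩ := hF
  obtain ⟨m, hm, hω⟩ := hω
  have hfrob : ∀ p : ℕ, p.Prime → p ∉ insert ℓ T → ∀ P : Ideal ZBar, P.IsMaximal →
      (p : ZBar) ∈ P →
      ∀ σ : GQ, (∀ x : ZBar, σ • x - x ^ p ∈ P) →
      (ι : PadicAlgCl ℓ →+* ℂ) (adc ρ σ) = coeff (S p) := by
    intro p hp hpB P hP hpP σ hσ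
    exact (Pool.Agent.Q92.FP.coeff_eq ((hS p hp hpB).frobenius P ⟨hP.isPrime, hpP⟩ σ hσ)).1.symm
  have hopen := open_Per ρ hρ (ι : PadicAlgCl ℓ →+* ℂ) (fun p => coeff (S p)) (insert ℓ T) F Z c hn hc
    hZ hFZ hfrob
  -- the quotients of the Satake parameters are roots of unity
  obtain ⟨q, hq0, hq⟩ := exists_pow_scalar hn ρ hss hopen
  have htemp : ∀ᶠ p : ℕ in atTop, p.Prime → ∀ a ∈ S p, ∀ b ∈ S p, ‖a‖ = ‖b‖ := by
    filter_upwards [eventually_gt_atTop ((insert ℓ T).sup id)] with p hpB hp a ha b hb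
    have hpB' : p ∉ insert ℓ T := fun h => absurd (Finset.le_sup (f := id) h) (not_le.2 hpB)
    obtain ⟨Q, σ, hQ, hpQ, hQσ⟩ := exists_frobenius hp
    have h2 := (Pool.Agent.Q92.FP.coeff_eq
      ((hS p hp hpB').frobenius Q ⟨hQ.isPrime, hpQ⟩ σ hQσ)).2
    obtain ⟨χ, hχ⟩ := hq σ⁻¹
    have h4 : ∀ a ∈ S p, a ^ q = (ι : PadicAlgCl ℓ →+* ℂ) χ := by
      intro a ha
      rw [h2, Multiset.mem_map] at ha
      obtain ⟨a0, ha0, rfl⟩ := ha
      rw [← map_pow, pow_eigen hχ ha0]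
    have h5 : ‖a‖ ^ q = ‖b‖ ^ q := by rw [← norm_pow, ← norm_pow, h4 a ha, h4 b hb]
    exact (pow_left_inj₀ (norm_nonneg a) (norm_nonneg b) hq0).1 h5
  have hirr : ∀ U, Pool.Agent.Y800.Stable ρ U → U = ⊥ ∨ U = ⊤ := fun U hU =>
    irreducible_of_mean hn ρ hss hopen (ι : PadicAlgCl ℓ →+* ℂ) (fun p => coeff (S p)) T
      (insert ℓ T) (Finset.subset_insert _ _) hfrob (hRS htemp) U hU
  have hdet := det_char ρ hρ (ι : PadicAlgCl ℓ →+* ℂ) S T k m
    (fun p hp hpT hpl P hP hpP σ hσ => (hS p hp (by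
      rw [Finset.mem_insert, not_or]; exact ⟨hpl, hpT⟩)).frobenius P ⟨hP.isPrime, hpP⟩ σ hσ) hω
  have hker := open_ker_twist hn ρ hρ hss hopen k m hm hdet
  refine ⟨(Matrix.GeneralLinearGroup.map (ι : PadicAlgCl ℓ →+* ℂ)).comp (twist ρ (cycPow ℓ k)),
    ⟨hn, fun W hW => ?_⟩, ?_, fun p hp hpB => ?_⟩
  · exact irr_map ι (twist ρ (cycPow ℓ k)) (fun W hW => hirr W (stable_twist.1 hW)) W hW
  · rw [Pool.Agent.Y800.ker_map]
    exact hker
  · have hpl : p ≠ ℓ := fun h => hpB (by rw [h]; exact Finset.mem_insert_self _ _)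
    refine ⟨fun Q hQ g hg => ?_, fun Q hQ g hg => ?_⟩
    · have h1 := (hS p hp hpB).unramified Q hQ g hg
      have h2 : cycPow ℓ k g = 1 := by
        rw [cycPow_apply, cyc_inertia hp hpl hQ.1 hQ.2 hg, _root_.one_zpow]
      have h3 : twist ρ (cycPow ℓ k) g = 1 := by
        apply Units.ext
        rw [coe_twist, h2, h1, Units.val_one, Units.val_one, one_smul]
      rw [MonoidHom.comp_apply, h3, map_one]
    · rw [MonoidHom.comp_apply, roots_map, RingHom.id_comp]
      exact roots_twist _ ρ (cycPow ℓ k) (cycPow_frob _ k hp hpl hQ.1 hQ.2 hg)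
        ((hS p hp hpB).frobenius Q hQ g hg)

open Pool.Agent.Q92.FP in
/-- from Artin representations to `ℓ`-adic representations -/
theorem to_adic {n : ℕ} (k : ℤ) (S : ℕ → Multiset ℂ) (B : Finset ℕ) (r : GQ →* GL (Fin n) ℂ)
    (hr : Irreducible r) (hA : IsArtin k S B r) (ℓ : ℕ) [Fact ℓ.Prime] (ι : PadicAlgCl ℓ ≃+* ℂ) :
    ∃ ρ : GQ →* GL (Fin n) (PadicAlgCl ℓ), Irreducible ρ ∧ IsAdic S (insert ℓ B) ι ρ := by
  classical
  obtain ⟨hker, hA⟩ := hA
  set ρ₀ : GQ →* GL (Fin n) (PadicAlgCl ℓ) :=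
    (Matrix.GeneralLinearGroup.map (ι.symm : ℂ →+* PadicAlgCl ℓ)).comp r with hρ₀
  have hker₀ : IsOpen (ρ₀.ker : Set GQ) := by rw [hρ₀, Pool.Agent.Y800.ker_map]; exact hker
  refine ⟨twist ρ₀ (cycPow ℓ (-k)), ⟨hr.1, fun W hW => ?_⟩, ?_, fun p hp hpB => ?_⟩
  · exact irr_map ι.symm r hr.2 W (stable_twist.1 hW)
  · exact continuous_twist ρ₀ (Pool.Agent.Y800.continuous_of_ker ρ₀ hker₀) _ (continuous_cycPow _)
  · rw [Finset.mem_insert, not_or] at hpB
    refine ⟨fun Q hQ g hg => ?_, fun Q hQ g hg => ?_⟩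
    · have h1 := (hA p hp hpB.2).unramified Q hQ g hg
      have h2 : cycPow ℓ (-k) g = 1 := by
        rw [cycPow_apply, cyc_inertia hp hpB.1 hQ.1 hQ.2 hg, _root_.one_zpow]
      have h4 : ρ₀ g = 1 := by rw [hρ₀, MonoidHom.comp_apply, h1, map_one]
      apply Units.ext
      rw [coe_twist, h2, h4, Units.val_one, Units.val_one, one_smul]
    · have h1 := (hA p hp hpB.2).frobenius Q hQ g hg
      have h2 : ((ρ₀ g⁻¹ : Matrix (Fin n) (Fin n) (PadicAlgCl ℓ)).charpoly.map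
          (ι : PadicAlgCl ℓ →+* ℂ)).roots = (S p).map fun a => a * (p : ℂ) ^ (-k) := by
        rw [hρ₀, MonoidHom.comp_apply, roots_map]
        have h3 : (ι : PadicAlgCl ℓ →+* ℂ).comp (ι.symm : ℂ →+* PadicAlgCl ℓ) = RingHom.id ℂ := by
          ext x
          exact ι.apply_symm_apply x
        rw [h3]
        exact h1
      have h3 := roots_twist (ι : PadicAlgCl ℓ →+* ℂ) ρ₀ (cycPow ℓ (-k))
        (cycPow_frob _ (-k) hp hpB.1 hQ.1 hQ.2 hg) h2
      rw [h3, Multiset.map_map]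
      conv_rhs => rw [← Multiset.map_id (S p)]
      refine Multiset.map_congr rfl fun a _ => ?_
      show a * (p : ℂ) ^ (-k) * (p : ℂ) ^ (- -k) = a
      rw [mul_assoc, ← zpow_add₀ (by exact_mod_cast hp.ne_zero)]
      simp

/-- **Artin motives from one `ℓ`-adic representation and few Rankin-Selberg coefficients.**

Let `n > 0`, `k` an integer, and `S p` multisets of complex numbers with `FewValues`,
`RankinSelberg` and `CentralCharacter`.  If for ONE prime `ℓ` and one isomorphism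
`ι : ℚbar_ℓ ≅ ℂ` there is a continuous semisimple `ℓ`-adic representation attached to `S p` at all
`p ∉ T`, `p ≠ ℓ`, then there is an irreducible complex representation `r` of `Gal(ℚbar/ℚ)` with
finite image, with the geometric Frobenius eigenvalues `a p ^ (-k)`, `a ∈ S p` (`p ∉ T`, `p ≠ ℓ`),
and for EVERY prime `ℓ'` and every `ι' : ℚbar_ℓ' ≅ ℂ` there is an irreducible continuous `ℓ'`-adic
representation attached to `S p` at all `p ∉ T`, `p ≠ ℓ`, `p ≠ ℓ'`. -/
theorem result {n : ℕ} (hn : 0 < n) (k : ℤ) (S : ℕ → Multiset ℂ) (T : Finset ℕ)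
    (hF : FewValues n S) (hRS : RankinSelberg S T) (hω : CentralCharacter n k S T)
    (ℓ : ℕ) [Fact ℓ.Prime] (ι : PadicAlgCl ℓ ≃+* ℂ)
    (hex : ∃ ρ : GQ →* GL (Fin n) (PadicAlgCl ℓ), Semisimple ρ ∧ IsAdic S (insert ℓ T) ι ρ) :
    (∃ r : GQ →* GL (Fin n) ℂ, Irreducible r ∧ IsArtin k S (insert ℓ T) r) ∧
    ∀ (ℓ' : ℕ) [Fact ℓ'.Prime] (ι' : PadicAlgCl ℓ' ≃+* ℂ),
      ∃ ρ' : GQ →* GL (Fin n) (PadicAlgCl ℓ'),
        Irreducible ρ' ∧ IsAdic S (insert ℓ' (insert ℓ T)) ι' ρ' := by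
  obtain ⟨ρ, hss, hS⟩ := hex
  obtain ⟨r, hr, hA⟩ := to_artin hn k S T hF hRS hω ι ρ hss hS
  exact ⟨⟨r, hr, hA⟩, fun ℓ' _ ι' => to_adic k S (insert ℓ T) r hr hA ℓ' ι'⟩

end Pool.Agent.Results.MP_7742d9_nt.ArtinTypeFromOneAdic
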