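import Pool.Agent.Q170.GO.Split

/-!
# Clozel's conjecture: the motives of hypergraphs are sufficient

Let `M` be the category of motives over `ℚ` for absolute Hodge cycles with coefficients in the number field
`𝔼`; it is abelian and semisimple. `D.H j X` is the graded object (for the weight filtration) of the
cohomology with compact supports `H^j_c(X) ⊗ 𝔼` of a scheme `X` over `ℚ`, `D.G w j X` its part of weight `w`.
The simple objects of `M` are, by the definition of motives, direct factors of Tate twists of the cohomology of
smooth projective schemes.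

For a finite set `H` of triples let `X_H` be the smooth affine hypersurface
`∑_{(i, j, l) ∈ H} x_i y_j z_l = 1` over `ℚ`.

**Theorem.** (1) Every simple object `N` of `M` is a Tate motive or a direct factor of a Tate twist of the
part of weight `j - 1` of `H^j_c(X_H) ⊗ 𝔼`, for some `j` and some `H`. Therefore, if `Good` is any condition
on motives, such as (1) and (2) of the question for a given representation `Π` together with the
absolute irreducibility, there is a simple object with the property `Good` if and only if there is one
which is a Tate motive or such a direct factor.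

(2) For every `d`, a simple object `N` that is not a Tate motive is a direct factor of a Tate twist of
`H^i(Y) ⊗ 𝔼` for a smooth projective scheme `Y` of dimension at most `d` if and only if it is a direct factor
of a Tate twist of the cohomology with compact supports of a cubic `T(x, y, z) = 1`, for a trilinear form
`T` over `ℚ` with a block of at most `d + 2` variables.
-/

set_option autoImplicit false

open CategoryTheory CategoryTheory.Limits AlgebraicGeometry Pool.Agent.Y116.UV Pool.Agent.Z125.UN
  Pool.Agent.Q193.LT Pool.Agent.Q148.LI Pool.Agent.Q170.GO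

universe v u

namespace Pool.Agent.Results.MP_7742d9_nt.HypergraphMotives

variable {M : Type u} [Category.{v} M] [Abelian M]

/-- Known facts about the category of motives with coefficients:

* `geo`: the standard properties of the cohomology with compact supports;
* `semisimple`: monomorphisms split (Deligne);
* `generated`: simple objects are direct factors of Tate twists of `H^i(Y)`, `Y` smooth projective. -/
structure IsMotives (D : Data ℚ M) (one : M) : Prop where
  geo : IsGeo D one
  semisimple : ∀ {X Y : M} (f : X ⟶ Y), Mono f → ∃ r : Y ⟶ X, f ≫ r = 𝟙 X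
  generated : ∀ N : M, Simple N → ∃ Y : Sch ℚ, SmoothProj Y ∧ ∃ i b,
    Factor N ((D.tw b).obj (D.H i Y))

/-- `N` is a Tate motive. -/
def IsTate (D : Data ℚ M) (one N : M) : Prop := ∃ a, Nonempty (N ≅ (D.tw a).obj one)

/-- `N` is a direct factor of a Tate twist of the part of weight `j - 1` of `H^j_c(X_H)`. -/
def FromHypergraph (D : Data ℚ M) (N : M) : Prop :=
  ∃ (a b c : ℕ) (H : Finset (Fin a × Fin b × Fin c)) (j m : ℤ),
    Factor N ((D.tw m).obj (D.G (j - 1) j (tripS ℚ H)))

lemma hypergraph_of_simple {D : Data ℚ M} {one : M} (h : IsMotives D one) (N : M) (hN : Simple N) :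
    IsTate D one N ∨ FromHypergraph D N := by
  by_cases hT : IsTate D one N
  · exact Or.inl hT
  · right
    have hT' : D.NotTate one N := fun a => ⟨fun e => hT ⟨a, ⟨e⟩⟩⟩
    obtain ⟨Y, hY, i, b, hf⟩ := h.generated N hN
    obtain ⟨a, b', c, H, j, m, hm⟩ := occ_graph frac_rat h.geo hT'
      ⟨Y, hY, i, b, (factor_iff h.semisimple _ _).mpr hf⟩
    exact ⟨a, b', c, H, j, m, (factor_iff h.semisimple _ _).mp hm⟩

/-- **Hypergraph motives are sufficient.** See the explanations above. -/
theorem result {D : Data ℚ M} {one : M} (h : IsMotives D one) :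
    (∀ N : M, Simple N → IsTate D one N ∨ FromHypergraph D N) ∧
    (∀ Good : M → Prop, (∃ N, Simple N ∧ Good N) ↔
      ∃ N, Simple N ∧ Good N ∧ (IsTate D one N ∨ FromHypergraph D N)) ∧
    ∀ N : M, Simple N → ¬ IsTate D one N → ∀ d : ℕ,
      ((∃ Y : Sch ℚ, SmoothProj Y ∧ topologicalKrullDim Y.left ≤ d ∧
          ∃ i m, Factor N ((D.tw m).obj (D.H i Y))) ↔
        ∃ (a b c : ℕ) (T : Fin a → Fin b → Fin c → ℚ), (a ≤ d + 2 ∨ b ≤ d + 2 ∨ c ≤ d + 2) ∧
          ∃ i m, Factor N ((D.tw m).obj (D.H i (hypS T)))) := by
  refine ⟨hypergraph_of_simple h, fun Good => ⟨?_, ?_⟩, ?_⟩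
  · rintro ⟨N, hN, hG⟩
    exact ⟨N, hN, hG, hypergraph_of_simple h N hN⟩
  · rintro ⟨N, hN, hG, -⟩
    exact ⟨N, hN, hG⟩
  · intro N hN hT d
    have hT' : D.NotTate one N := fun a => ⟨fun e => hT ⟨a, ⟨e⟩⟩⟩
    have h1 := from_iff h.geo hT' d
    unfold Data.From Data.Occ at h1
    simp only [factor_iff h.semisimple] at h1
    exact h1

end Pool.Agent.Results.MP_7742d9_nt.HypergraphMotives
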