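import Mathlib
import Pool.Agent.Q112.FT.Irred

/-!
# Motives of cuspidal representations which become sums of twists over a nilpotent extension

`Π` is an algebraic cuspidal automorphic representation of `GL_n` over `ℚ`, `W` is the absolute
Galois group of `ℚ`, `R` is a semisimple geometric `l`-adic representation of `W` attached to `Π`
(at almost all places), `K/ℚ` is a Galois extension with nilpotent group, `A` is the absolute Galois
group of `K`, and `S_i` are symmetric powers of the representations of newforms which are not of CM
type (or the trivial representation), without nontrivial selftwists over `K`. If all the irreducible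
constituents of `R` over `K` are twists of some `S_i`, then `R` is irreducible and Clozel's
conjecture holds for `Π`: its motive is obtained from a twist of a symmetric power of the motive of
a newform, over a field between `ℚ` and `K`, by inductions of prime degree.
-/

set_option autoImplicit false

namespace Pool.Agent.Results.MP_7742d9_nt.TwistsOverNilpotent

open Pool.Agent.Q112.FT

variable {W V : Type} [Group W] [AddCommGroup V] [Module ℂ V]

/-- The known theorems. `H` runs through the subgroups of `W` of finite index which contain `A`;
`K_H` is the field of `H`. `aut H U`: there is an isobaric automorphic representation of the general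
linear group over `K_H` whose Satake parameters are the eigenvalues of Frobenius on `U` at almost
all places. `mot H U`: `U` is the `l`-adic realization of a motive for absolute Hodge cycles over
`K_H` with coefficients, which is obtained from motives of newforms, Hecke characters and finite
extensions, and satisfies local-global compatibility. `Clozel`: there are a number field `𝔼` and a
motive `M_Π` as in Q1. -/
structure KnownTheorems {ι : Type} {E : ι → Type} [∀ i, AddCommGroup (E i)] [∀ i, Module ℂ (E i)]
    (R : Representation ℂ W V) (A : Subgroup W) (S : ∀ i, Representation ℂ W (E i))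
    (aut mot : Subgroup W → Submodule ℂ V → Prop) (Clozel : Prop) : Prop where
  /-- base change to `K_H` (Arthur, Clozel) and twist by a character (class field theory) -/
  twist : ∀ H U i, A ≤ H → Stable R H U → IsTwist R (S i) H U → aut H U
  /-- automorphic induction from a cyclic extension of prime degree (Arthur, Clozel) -/
  induction : ∀ H M U U₀, A ≤ M → M ≤ H → (∀ h ∈ H, ∀ m ∈ M, h * m * h⁻¹ ∈ M) →
    (M.relIndex H).Prime → Stable R M U₀ → Stable R H U → IsInduced R M H U₀ U →
    aut M U₀ → aut H U
  /-- isobaric sums -/
  sum : ∀ H U U', aut H U → aut H U' → Disjoint U U' → aut H (U ⊔ U')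
  /-- strong multiplicity one (Jacquet, Shalika): the cuspidal representation `Π` attached to
  `V` is not a proper isobaric sum -/
  cuspidal : ∀ U U', aut ⊤ U → aut ⊤ U' → IsCompl U U' → U = ⊥ ∨ U' = ⊥
  /-- the motives of newforms (Deligne, Scholl), their symmetric powers, and the motives of
  algebraic Hecke characters (the twist is by a geometric character, as `R` is geometric) -/
  mot_twist : ∀ H U i, A ≤ H → Stable R H U → IsTwist R (S i) H U → mot H U
  /-- restriction of scalars of motives, and automorphic induction -/
  mot_induction : ∀ H M U U₀, A ≤ M → M ≤ H → (∀ h ∈ H, ∀ m ∈ M, h * m * h⁻¹ ∈ M) →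
    (M.relIndex H).Prime → Stable R M U₀ → Stable R H U → IsInduced R M H U₀ U →
    mot M U₀ → mot H U
  /-- if `R` is irreducible and the realization of a motive as above, then this motive has the
  properties (1) and (2): `Π` is the corresponding automorphic induction, by strong multiplicity
  one -/
  compatibility : Irr R ⊤ ⊤ → mot ⊤ ⊤ → Clozel

theorem result {ι : Type} {E : ι → Type} [∀ i, AddCommGroup (E i)] [∀ i, Module ℂ (E i)]
    [FiniteDimensional ℂ V] [Nontrivial V] (A : Subgroup W) [A.Normal] [Finite (W ⧸ A)]
    [Group.IsNilpotent (W ⧸ A)] (R : Representation ℂ W V)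
    (hss : ∀ U : Submodule ℂ V, Stable R ⊤ U → ∃ U', Stable R ⊤ U' ∧ IsCompl U U')
    (S : ∀ i, Representation ℂ W (E i)) (hS : ∀ i, NoSelfTwist (S i) A)
    (hA : ∀ U : Submodule ℂ V, Irr R A U → ∃ i, IsTwist R (S i) A U)
    (aut mot : Subgroup W → Submodule ℂ V → Prop) (Clozel : Prop)
    (known : KnownTheorems R A S aut mot Clozel) :
    Irr R ⊤ ⊤ ∧ mot ⊤ ⊤ ∧ Clozel := by
  have h1 : Irr R ⊤ ⊤ := irr_of_cuspidal A R hss S hS hA aut known.twist known.induction known.sum
    known.cuspidal
  have h2 : mot ⊤ ⊤ := irr_aut A R S hS hA mot ⟨known.mot_twist, known.mot_induction⟩ le_top h1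
  exact ⟨h1, h2, known.compatibility h1 h2⟩

end Pool.Agent.Results.MP_7742d9_nt.TwistsOverNilpotent
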